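import Mathlib

set_option autoImplicit false

namespace Pool.Agent.Results.MP_409260_co.Counter

/-- The vertices at distance at most `r` from `v`. -/
def ball {V : Type} (G : SimpleGraph V) (v : V) (r : ℕ) : Set V := {u | G.edist v u ≤ r}

/-- All balls of radius `r` have `k` vertices and are isomorphic as rooted induced subgraphs. -/
def UniformAt {V : Type} (G : SimpleGraph V) (r k : ℕ) : Prop :=
  (∀ v, (ball G v r).ncard = k) ∧
    ∀ v w, ∃ φ : G.induce (ball G v r) ≃g G.induce (ball G w r),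
      ∀ h : v ∈ ball G v r, (φ ⟨v, h⟩).1 = w

def VertexTransitive {V : Type} (G : SimpleGraph V) : Prop :=
  ∀ u v, ∃ φ : G ≃g G, φ u = v

/-- The disjoint union of a 4-cycle on `0..3` and a 5-cycle on `4..8`. -/
def nx (a : Fin 9) : Fin 9 := ![1, 2, 3, 0, 5, 6, 7, 8, 4] a

def C (a b : Fin 9) : Prop := nx a = b ∨ nx b = a

instance : DecidableRel C := fun a b => inferInstanceAs (Decidable (nx a = b ∨ nx b = a))

def G (m : ℕ) : SimpleGraph (Fin m × Fin 9) where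
  Adj p q := p.1 ≠ q.1 ∨ C p.2 q.2
  symm := ⟨fun _ _ h => h.elim (fun h => Or.inl h.symm) (fun h => Or.inr h.symm)⟩
  loopless := ⟨fun p h => h.elim (fun h => h rfl) ((by decide : ∀ a, ¬ C a a) p.2)⟩

theorem adj_iff {m : ℕ} (p q : Fin m × Fin 9) : (G m).Adj p q ↔ p.1 ≠ q.1 ∨ C p.2 q.2 := Iff.rfl

theorem mem_ball {m : ℕ} (v u : Fin m × Fin 9) :
    u ∈ ball (G m) v 1 ↔ v.1 ≠ u.1 ∨ C v.2 u.2 ∨ v.2 = u.2 := by
  show (G m).edist v u ≤ ((1 : ℕ) : ℕ∞) ↔ _
  rw [Nat.cast_one, SimpleGraph.edist_le_one_iff_adj_or_eq, adj_iff]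
  constructor
  · rintro ((h | h) | h)
    · exact Or.inl h
    · exact Or.inr (Or.inl h)
    · exact Or.inr (Or.inr (by rw [h]))
  · rintro (h | h | h)
    · exact Or.inl (Or.inl h)
    · exact Or.inl (Or.inr h)
    · by_cases h1 : v.1 = u.1
      · exact Or.inr (Prod.ext h1 h)
      · exact Or.inl (Or.inl h1)

def tau (a : Fin 9) (c : Fin 9) : Fin 9 :=
  ![![0, 1, 3, 2, 4, 5, 6, 7, 8], ![1, 2, 0, 3, 4, 5, 6, 7, 8], ![2, 3, 1, 0, 4, 5, 6, 7, 8],
    ![3, 0, 2, 1, 4, 5, 6, 7, 8], ![4, 5, 8, 0, 1, 2, 3, 6, 7], ![5, 6, 4, 0, 1, 2, 3, 7, 8],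
    ![6, 7, 5, 0, 1, 2, 3, 4, 8], ![7, 8, 6, 0, 1, 2, 3, 4, 5], ![8, 4, 7, 0, 1, 2, 3, 5, 6]] a c

theorem tau_bij : ∀ a, Function.Bijective (tau a) := by decide +kernel

noncomputable def tauE (a : Fin 9) : Fin 9 ≃ Fin 9 := Equiv.ofBijective (tau a) (tau_bij a)

theorem sigma (a b : Fin 9) : ∃ σ : Fin 9 ≃ Fin 9, σ a = b ∧
    (∀ c, (C a c ∨ a = c) ↔ (C b (σ c) ∨ b = σ c)) ∧
    ∀ c d, (C a c ∨ a = c) → (C a d ∨ a = d) → (C (σ c) (σ d) ↔ C c d) := by
  have h0 : ∀ a, tau a 0 = a := by decide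
  have h1 : ∀ a b c, (C a (tau a c) ∨ a = tau a c) ↔ (C b (tau b c) ∨ b = tau b c) := by
    decide +kernel
  have h2 : ∀ a b c d, (C a (tau a c) ∨ a = tau a c) → (C a (tau a d) ∨ a = tau a d) →
      (C (tau b c) (tau b d) ↔ C (tau a c) (tau a d)) := by decide +kernel
  refine ⟨(tauE a).symm.trans (tauE b), ?_, ?_, ?_⟩
  · have : (tauE a).symm a = 0 := by
      rw [Equiv.symm_apply_eq]; exact (h0 a).symm
    rw [Equiv.trans_apply, this]; exact h0 b
  · intro c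
    obtain ⟨c, rfl⟩ := (tauE a).surjective c
    rw [Equiv.trans_apply, Equiv.symm_apply_apply]
    exact h1 a b c
  · intro c d
    obtain ⟨c, rfl⟩ := (tauE a).surjective c
    obtain ⟨d, rfl⟩ := (tauE a).surjective d
    rw [Equiv.trans_apply, Equiv.symm_apply_apply, Equiv.trans_apply, Equiv.symm_apply_apply]
    exact h2 a b c d

theorem ball_card {m : ℕ} (v : Fin m × Fin 9) : (ball (G m) v 1).ncard = 9 * m - 6 := by
  classical
  have hc : (ball (G m) v 1)ᶜ = (fun c : Fin 9 => (v.1, c)) ''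
      ↑(Finset.univ.filter (fun c => ¬ (C v.2 c ∨ v.2 = c))) := by
    ext u
    rw [Set.mem_compl_iff, mem_ball]
    simp only [Set.mem_image, Finset.coe_filter, Finset.mem_univ, true_and, Set.mem_ofPred_eq]
    constructor
    · intro h
      have h1 : v.1 = u.1 := by
        by_contra h1; exact h (Or.inl h1)
      exact ⟨u.2, fun h2 => h (Or.inr h2), Prod.ext h1 rfl⟩
    · rintro ⟨c, hc, rfl⟩ (h | h)
      · exact h rfl
      · exact hc h
  have h6 : ∀ a : Fin 9, (Finset.univ.filter (fun c => ¬ (C a c ∨ a = c))).card = 6 := by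
    decide +kernel
  have h1 : ((ball (G m) v 1)ᶜ).ncard = 6 := by
    rw [hc, Set.ncard_image_of_injective _ (fun a b h => (Prod.ext_iff.1 h).2),
      Set.ncard_coe_finset, h6]
  have h2 := Set.ncard_add_ncard_compl (ball (G m) v 1)
  rw [h1, Nat.card_prod, Nat.card_fin, Nat.card_fin] at h2
  omega

theorem uniform (m : ℕ) : UniformAt (G m) 1 (9 * m - 6) := by
  refine ⟨ball_card, ?_⟩
  rintro ⟨i, a⟩ ⟨j, b⟩
  obtain ⟨σ, h0, h1, h2⟩ := sigma a b
  let Φ : Fin m × Fin 9 ≃ Fin m × Fin 9 :=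
    Equiv.prodShear (Equiv.swap i j) (fun x => if x = i then σ else Equiv.refl _)
  have hΦ : ∀ p : Fin m × Fin 9,
      Φ p = (Equiv.swap i j p.1, (if p.1 = i then σ else Equiv.refl _) p.2) := fun p => rfl
  have hmem : ∀ p, p ∈ ball (G m) (i, a) 1 ↔ Φ p ∈ ball (G m) (j, b) 1 := by
    rintro ⟨x, c⟩
    rw [mem_ball, mem_ball, hΦ]
    by_cases hx : x = i
    · subst hx
      simp only [ne_eq, not_true_eq_false, false_or, Equiv.swap_apply_left, if_true]
      exact h1 c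
    · have : j ≠ Equiv.swap i j x := by
        intro h
        have h' : Equiv.swap i j i = Equiv.swap i j x := by rw [Equiv.swap_apply_left]; exact h
        exact hx ((Equiv.swap i j).injective h').symm
      exact ⟨fun _ => Or.inl this, fun _ => Or.inl (Ne.symm hx)⟩
  refine ⟨⟨Φ.subtypeEquiv hmem, ?_⟩, ?_⟩
  · rintro ⟨⟨x, c⟩, hp⟩ ⟨⟨y, d⟩, hq⟩
    show (G m).Adj (Φ (x, c)) (Φ (y, d)) ↔ (G m).Adj (x, c) (y, d)
    rw [adj_iff, adj_iff, hΦ, hΦ]
    by_cases hxy : x = y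
    · subst hxy
      by_cases hx : x = i
      · subst hx
        rw [mem_ball] at hp hq
        simp only [ne_eq, not_true_eq_false, false_or, if_true] at hp hq ⊢
        exact h2 c d hp hq
      · simp [hx]
    · have : Equiv.swap i j x ≠ Equiv.swap i j y := fun h => hxy ((Equiv.swap i j).injective h)
      exact ⟨fun _ => Or.inl hxy, fun _ => Or.inl this⟩
  · intro h
    show Φ (i, a) = (j, b)
    rw [hΦ]
    simp [h0]

theorem not_vt (m : ℕ) (hm : 0 < m) : ¬ VertexTransitive (G m) := by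
  intro h
  obtain ⟨φ, hφ⟩ := h (⟨0, hm⟩, 0) (⟨0, hm⟩, 4)
  have htw : ∀ x, (G m).Adj (⟨0, hm⟩, 2) x ↔ (G m).Adj (⟨0, hm⟩, 0) x := by
    rintro ⟨y, c⟩
    rw [adj_iff, adj_iff]
    have : ∀ c, C 2 c ↔ C 0 c := by decide
    simp only [this c]
  have hne : φ (⟨0, hm⟩, 2) ≠ (⟨0, hm⟩, 4) := by
    rw [← hφ]
    intro h
    have := (Prod.ext_iff.1 (φ.injective h)).2
    exact absurd this (by decide : ¬ (2 : Fin 9) = 0)
  have htw2 : ∀ x, (G m).Adj (φ (⟨0, hm⟩, 2)) x ↔ (G m).Adj (⟨0, hm⟩, 4) x := by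
    intro x
    obtain ⟨x, rfl⟩ := φ.surjective x
    rw [← hφ, φ.map_adj_iff, φ.map_adj_iff]
    exact htw x
  generalize φ (⟨0, hm⟩, 2) = u at hne htw2
  obtain ⟨y, c⟩ := u
  have hy : y = ⟨0, hm⟩ := by
    by_contra hy
    exact (G m).irrefl ((htw2 (⟨0, hm⟩, 4)).1 (Or.inl hy))
  subst hy
  have hc : c ≠ 4 := fun h => hne (by rw [h])
  have key : ∀ c : Fin 9, c ≠ 4 → ∃ d, ¬ (C c d ↔ C 4 d) := by decide
  obtain ⟨d, hd⟩ := key c hc
  have := htw2 (⟨0, hm⟩, d)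
  rw [adj_iff, adj_iff] at this
  simp only [ne_eq, not_true_eq_false, false_or] at this
  exact hd this

theorem ediam_eq (m : ℕ) (hm : 2 ≤ m) : (G m).ediam = 2 := by
  have : Nontrivial (Fin m) := Fin.nontrivial_iff_two_le.2 hm
  refine le_antisymm (SimpleGraph.ediam_le_of_edist_le ?_) ?_
  · intro u v
    by_cases h : u.1 = v.1
    · obtain ⟨j, hj⟩ := exists_ne u.1
      have h1 : (G m).Adj u (j, 0) := Or.inl hj.symm
      have h2 : (G m).Adj (j, 0) v := Or.inl (by rw [← h]; exact hj)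
      exact (SimpleGraph.Walk.cons h1 (SimpleGraph.Walk.cons h2 SimpleGraph.Walk.nil)).edist_le
    · have h1 : (G m).Adj u v := Or.inl h
      rw [SimpleGraph.edist_eq_one_iff_adj.2 h1]
      norm_num
  · have h0 : 0 < m := by omega
    refine le_trans ?_ (SimpleGraph.edist_le_ediam (u := (⟨0, h0⟩, 0)) (v := (⟨0, h0⟩, 2)))
    by_contra hlt
    have h1 : (G m).edist (⟨0, h0⟩, 0) (⟨0, h0⟩, 2) ≤ 1 := Order.le_of_lt_succ (not_le.1 hlt)
    rw [SimpleGraph.edist_le_one_iff_adj_or_eq, adj_iff] at h1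
    rcases h1 with (h | h) | h
    · exact h rfl
    · exact absurd h (by decide : ¬ C 0 2)
    · exact absurd (Prod.ext_iff.1 h).2 (by decide : ¬ (0 : Fin 9) = 2)

theorem result : ∀ m : ℕ, 2 ≤ m → ∃ G : SimpleGraph (Fin m × Fin 9),
    G.ediam = 2 ∧ UniformAt G 1 (9 * m - 6) ∧ ¬ VertexTransitive G :=
  fun m hm => ⟨G m, ediam_eq m hm, uniform m, not_vt m (by omega)⟩

end Pool.Agent.Results.MP_409260_co.Counter
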